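import Pool.Agent.H297R2.LG.Defs

/-!
# Large gaps: from the local statement to a positive proportion
-/

open Complex Filter Topology Set MeasureTheory

namespace LG

open SG (hh nn dd dl ord NZ)
open SP (RHs ZZ mu wt Mk Par Eb PS chi qq tt)

namespace PosA

lemma fin_ord (T : ℝ) (S : Set ℕ) (hS : ∀ n ∈ S, 1 ≤ n ∧ ord n ≤ T) : S.Finite := by
  refine (Set.finite_Iic (NZ T)).subset ?_
  intro n hn
  obtain ⟨h1, h2⟩ := hS n hn
  exact (SG.ord_le_iff h1 T).mp h2

/-- `M` disjoint sets, each with at least `x` elements -/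
lemma card_windows {S : Set ℕ} (hS : S.Finite) (M : ℕ) (W : ℕ → Set ℕ) (hW : ∀ i < M, W i ⊆ S)
    (hd : ∀ i < M, ∀ j < M, i ≠ j → Disjoint (W i) (W j)) (x : ℝ)
    (hx : ∀ i < M, x ≤ ((W i).ncard : ℝ)) : M * x ≤ (S.ncard : ℝ) := by
  classical
  have hfin : ∀ i < M, (W i).Finite := fun i hi => hS.subset (hW i hi)
  set F : ℕ → Finset ℕ := fun i => hS.toFinset.filter (fun n => n ∈ W i) with hF
  have h1 : ∀ i < M, (W i).ncard = (F i).card := by
    intro i hi
    rw [← Set.ncard_coe_finset]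
    congr 1
    ext n
    simp only [hF, Finset.coe_filter, Set.Finite.mem_toFinset, Set.mem_ofPred_eq]
    exact ⟨fun h => ⟨hW i hi h, h⟩, fun h => h.2⟩
  have h2 : ((Finset.range M).biUnion F).card = ∑ i ∈ Finset.range M, (F i).card := by
    apply Finset.card_biUnion
    intro i hi j hj hij
    rw [Finset.mem_coe, Finset.mem_range] at hi hj
    show Disjoint (F i) (F j)
    rw [Finset.disjoint_left]
    intro n hn hn'
    simp only [hF, Finset.mem_filter] at hn hn'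
    exact Set.disjoint_left.mp (hd i hi j hj hij) hn.2 hn'.2
  have h3 : ((Finset.range M).biUnion F).card ≤ S.ncard := by
    rw [Set.ncard_eq_toFinset_card S hS]
    apply Finset.card_le_card
    intro n hn
    rw [Finset.mem_biUnion] at hn
    obtain ⟨i, -, hn⟩ := hn
    exact (Finset.mem_filter.mp hn).1
  have h4 : (M : ℝ) * x ≤ ∑ i ∈ Finset.range M, ((F i).card : ℝ) := by
    have : ∑ i ∈ Finset.range M, x ≤ ∑ i ∈ Finset.range M, ((F i).card : ℝ) := by
      apply Finset.sum_le_sum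
      intro i hi
      rw [Finset.mem_range] at hi
      rw [← h1 i hi]
      exact hx i hi
    simpa using this
  calc (M : ℝ) * x ≤ ∑ i ∈ Finset.range M, ((F i).card : ℝ) := h4
    _ = (((Finset.range M).biUnion F).card : ℝ) := by rw [h2]; push_cast; rfl
    _ ≤ (S.ncard : ℝ) := by exact_mod_cast h3

/-- upper bound for the number of zeros -/
lemma NZ_up : ∃ C T1 : ℝ, 0 < C ∧ 3 ≤ T1 ∧ ∀ T : ℝ, T1 ≤ T → (NZ (2 * T) : ℝ) ≤ C * (T * Real.log T) := by
  obtain ⟨C, hC, hb⟩ := SG.NZ_nat_bound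
  refine ⟨NZ 3 + 6 * C, 3, by positivity, le_refl _, fun T hT => ?_⟩
  set m : ℕ := ⌈2 * T⌉₊ with hm
  have hm1 : 2 * T ≤ m := Nat.le_ceil _
  have hm2 : (m : ℝ) ≤ 3 * T := by
    have := (Nat.ceil_lt_add_one (by linarith : 0 ≤ 2 * T)).le
    linarith
  have hm3 : 3 ≤ m := by
    have : (3 : ℝ) ≤ m := by linarith
    exact_mod_cast this
  have h2 := hb m hm3
  have h3 : (NZ (2 * T) : ℝ) ≤ NZ (m : ℝ) := by exact_mod_cast SG.NZ_mono hm1
  have hm0 : (0 : ℝ) < m := by linarith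
  have hlogT : 1 ≤ Real.log T := by
    rw [Real.le_log_iff_exp_le (by linarith)]
    have := Real.exp_one_lt_d9
    linarith
  have h4 : Real.log m ≤ 2 * Real.log T := by
    have h5 : Real.log m ≤ Real.log (T ^ 2) := by
      apply Real.log_le_log hm0
      nlinarith
    rw [Real.log_pow] at h5
    push_cast at h5
    exact h5
  have h6 : C * m * Real.log m ≤ C * (3 * T) * (2 * Real.log T) := by
    apply mul_le_mul
    · exact mul_le_mul_of_nonneg_left hm2 hC.le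
    · exact h4
    · exact Real.log_nonneg (by linarith)
    · positivity
  have h7 : (NZ 3 : ℝ) ≤ NZ 3 * (T * Real.log T) := by
    apply le_mul_of_one_le_right (by positivity)
    nlinarith
  linarith

end PosA

/-- many large gaps with ordinates in `[T, 2T]` -/
theorem pos_large (κ : ℝ) (hκ : 0 < κ) (c1 : ℝ) {ε K T0 : ℝ} (hε : 0 < ε) (hK : 1 ≤ K)
    (hT0 : 10 ≤ T0)
    (hloc : ∀ T : ℝ, T0 ≤ T → ∀ t0 : ℝ, 11 / 10 * T ≤ t0 → t0 ≤ 19 / 10 * T →
      ε * dd κ T * Real.log T ≤ ({n : ℕ | 1 ≤ n ∧ |ord n - t0| ≤ K * dd κ T ∧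
        2 * Real.pi * c1 / Real.log T < ord (n + 1) - ord n}.ncard : ℝ)) :
    ∃ ε T0 : ℝ, 0 < ε ∧ 10 ≤ T0 ∧ ∀ T : ℝ, T0 ≤ T →
    ε * (T * Real.log T) ≤
      ({n : ℕ | 1 ≤ n ∧ T ≤ ord n ∧ ord n ≤ 2 * T ∧
        2 * Real.pi * c1 / Real.log T < ord (n + 1) - ord n}.ncard : ℝ) := by
  have hlim : Tendsto (fun T : ℝ => T ^ (κ / 2)) atTop atTop := tendsto_rpow_atTop (by linarith)
  obtain ⟨T1, hT1⟩ := (tendsto_atTop.mp hlim (100 * K)).exists_forall_of_atTop
  refine ⟨ε / (10 * K), max (max T0 T1) 1000, by positivity, ?_, fun T hT => ?_⟩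
  · exact le_trans (by norm_num) (le_max_right _ _)
  have hTT0 : T0 ≤ T := ((le_max_left _ _).trans (le_max_left _ _)).trans hT
  have hTT1 : T1 ≤ T := ((le_max_right _ _).trans (le_max_left _ _)).trans hT
  have hT1000 : 1000 ≤ T := (le_max_right _ _).trans hT
  have hTpos : 0 < T := by linarith
  have hlog1 : 1 ≤ Real.log T := by
    rw [Real.le_log_iff_exp_le hTpos]
    have := Real.exp_one_lt_d9
    linarith
  set Δ : ℝ := dd κ T with hΔ
  have hΔ0 : 0 < Δ := by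
    rw [hΔ]
    unfold dd
    positivity
  -- K Δ ≤ T / 100
  have hKΔ : 100 * (K * Δ) ≤ T := by
    have h1 := hT1 T hTT1
    have h2 : T ^ (κ / 2) * Δ = T := by
      rw [hΔ]
      unfold dd
      rw [← Real.rpow_add hTpos]
      have : κ / 2 + (1 - κ / 2) = 1 := by ring
      rw [this, Real.rpow_one]
    calc 100 * (K * Δ) = (100 * K) * Δ := by ring
      _ ≤ T ^ (κ / 2) * Δ := mul_le_mul_of_nonneg_right h1 hΔ0.le
      _ = T := h2
  have hKΔ0 : 0 < K * Δ := by positivity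
  set M : ℕ := ⌊(8 / 10 * T) / (3 * (K * Δ))⌋₊ with hM
  have hM1 : (M : ℝ) ≤ (8 / 10 * T) / (3 * (K * Δ)) := Nat.floor_le (by positivity)
  have hM2 : (8 / 10 * T) / (3 * (K * Δ)) < M + 1 := Nat.lt_floor_add_one _
  have hM3 : T / (10 * (K * Δ)) ≤ M := by
    have h1 : (8 / 10 * T) / (3 * (K * Δ)) = 8 / 30 * (T / (K * Δ)) := by field_simp; norm_num
    have h2 : T / (10 * (K * Δ)) = 1 / 10 * (T / (K * Δ)) := by field_simp
    have h3 : 100 ≤ T / (K * Δ) := by
      rw [le_div_iff₀ hKΔ0]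
      exact hKΔ
    rw [h1] at hM2
    rw [h2]
    linarith
  set S : Set ℕ := {n : ℕ | 1 ≤ n ∧ T ≤ ord n ∧ ord n ≤ 2 * T ∧
        2 * Real.pi * c1 / Real.log T < ord (n + 1) - ord n} with hS
  have hSfin : S.Finite := by
    apply PosA.fin_ord (2 * T)
    intro n hn
    exact ⟨hn.1, hn.2.2.1⟩
  set t : ℕ → ℝ := fun i => 11 / 10 * T + 3 * (K * Δ) * i with ht
  set W : ℕ → Set ℕ := fun i => {n : ℕ | 1 ≤ n ∧ |ord n - t i| ≤ K * dd κ T ∧
        2 * Real.pi * c1 / Real.log T < ord (n + 1) - ord n} with hW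
  have hti : ∀ i < M, 11 / 10 * T ≤ t i ∧ t i ≤ 19 / 10 * T := by
    intro i hi
    have hiM : (i : ℝ) ≤ M := by exact_mod_cast hi.le
    have h1 : 3 * (K * Δ) * i ≤ 8 / 10 * T := by
      have h2 : (i : ℝ) ≤ (8 / 10 * T) / (3 * (K * Δ)) := hiM.trans hM1
      rw [le_div_iff₀ (by positivity)] at h2
      linarith
    have h3 : 0 ≤ 3 * (K * Δ) * (i : ℝ) := by positivity
    constructor
    · simp only [ht]; linarith
    · simp only [ht]; linarith
  have hsub : ∀ i < M, W i ⊆ S := by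
    intro i hi n hn
    obtain ⟨h1, h2, h3⟩ := hn
    obtain ⟨h4, h5⟩ := hti i hi
    rw [abs_le] at h2
    rw [← hΔ] at h2
    exact ⟨h1, by linarith, by linarith, h3⟩
  have hdisj : ∀ i < M, ∀ j < M, i ≠ j → Disjoint (W i) (W j) := by
    intro i _ j _ hij
    rw [Set.disjoint_left]
    intro n hn hn'
    have h1 := abs_le.mp hn.2.1
    have h2 := abs_le.mp hn'.2.1
    rw [← hΔ] at h1 h2
    simp only [ht] at h1 h2
    rcases Nat.lt_or_gt_of_ne hij with h | h
    · have h3 : (i : ℝ) + 1 ≤ j := by exact_mod_cast h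
      have h4 : 3 * (K * Δ) * ((i : ℝ) + 1) ≤ 3 * (K * Δ) * j :=
        mul_le_mul_of_nonneg_left h3 (by positivity)
      nlinarith
    · have h3 : (j : ℝ) + 1 ≤ i := by exact_mod_cast h
      have h4 : 3 * (K * Δ) * ((j : ℝ) + 1) ≤ 3 * (K * Δ) * i :=
        mul_le_mul_of_nonneg_left h3 (by positivity)
      nlinarith
  have hcount : ∀ i < M, ε * Δ * Real.log T ≤ ((W i).ncard : ℝ) := by
    intro i hi
    exact hloc T hTT0 (t i) (hti i hi).1 (hti i hi).2
  have hfinal := PosA.card_windows hSfin M W hsub hdisj _ hcount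
  refine le_trans ?_ hfinal
  have h5 : 0 ≤ ε * Δ * Real.log T := by positivity
  calc ε / (10 * K) * (T * Real.log T) = T / (10 * (K * Δ)) * (ε * Δ * Real.log T) := by
        field_simp
    _ ≤ M * (ε * Δ * Real.log T) := mul_le_mul_of_nonneg_right hM3 h5

/-- in terms of the first `N` gaps, normalised by the local density -/
theorem pos_large_aux (c1 : ℝ) (P : ℕ → Prop)
    (h : ∃ ε T0 : ℝ, 0 < ε ∧ 10 ≤ T0 ∧ ∀ T : ℝ, T0 ≤ T →
      ε * (T * Real.log T) ≤
        ({n : ℕ | 1 ≤ n ∧ T ≤ ord n ∧ ord n ≤ 2 * T ∧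
          2 * Real.pi * c1 / Real.log T < ord (n + 1) - ord n}.ncard : ℝ))
    (hP : ∃ T2 : ℝ, ∀ T : ℝ, T2 ≤ T → ∀ n : ℕ, 1 ≤ n → T ≤ ord n → ord n ≤ 2 * T →
      2 * Real.pi * c1 / Real.log T < ord (n + 1) - ord n → P n) :
    ∃ ε : ℝ, 0 < ε ∧ ∀ᶠ N : ℕ in atTop, ε * N ≤ (({n : ℕ | 1 ≤ n ∧ n ≤ N ∧ P n}.ncard : ℕ) : ℝ) := by
  obtain ⟨ε, T0, hε, hT0, hb⟩ := h
  obtain ⟨T2, hT2⟩ := hP
  obtain ⟨C, T1, hC, hT1, hup⟩ := PosA.NZ_up
  refine ⟨ε / C, by positivity, ?_⟩
  set X0 : ℝ := max (max T0 T1) T2 with hX0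
  have hX03 : 3 ≤ X0 := hT1.trans ((le_max_right _ _).trans (le_max_left _ _))
  have hlim : Tendsto (fun N : ℕ => (N : ℝ) / C) atTop atTop :=
    tendsto_natCast_atTop_atTop.atTop_div_const hC
  filter_upwards [hlim.eventually_gt_atTop (X0 * Real.log X0)] with N hN
  -- choose T with T log T = N / C
  have hX0l : 1 ≤ Real.log X0 := by
    rw [Real.le_log_iff_exp_le (by linarith)]
    have := Real.exp_one_lt_d9
    linarith
  set y : ℝ := (N : ℝ) / C with hy
  have hyX : X0 ≤ y := by nlinarith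
  have hlogy : 1 ≤ Real.log y := hX0l.trans (Real.log_le_log (by linarith) hyX)
  have hcont : ContinuousOn (fun T : ℝ => T * Real.log T) (Set.Icc X0 y) := by
    apply ContinuousOn.mul continuousOn_id
    apply Real.continuousOn_log.mono
    intro x hx
    simp only [Set.mem_compl_iff, Set.mem_singleton_iff]
    have := hx.1
    linarith
  have hiv := intermediate_value_Icc hyX hcont
  have hmem : y ∈ Set.Icc (X0 * Real.log X0) (y * Real.log y) := ⟨hN.le, by nlinarith⟩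
  obtain ⟨T, hTm, hTe⟩ := hiv hmem
  simp only at hTe
  have hXT : X0 ≤ T := hTm.1
  have hTT0 : T0 ≤ T := ((le_max_left _ _).trans (le_max_left _ _)).trans hXT
  have hTT1 : T1 ≤ T := ((le_max_right _ _).trans (le_max_left _ _)).trans hXT
  have hTT2 : T2 ≤ T := (le_max_right _ _).trans hXT
  have h1 := hb T hTT0
  have h2 := hup T hTT1
  rw [hTe] at h1 h2
  have h3 : C * y = N := by rw [hy]; field_simp
  rw [h3] at h2
  have h2' : NZ (2 * T) ≤ N := by exact_mod_cast h2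
  have h4 : ε / C * N = ε * y := by rw [hy]; field_simp
  rw [h4]
  refine h1.trans ?_
  have h5 : ({n : ℕ | 1 ≤ n ∧ T ≤ ord n ∧ ord n ≤ 2 * T ∧
          2 * Real.pi * c1 / Real.log T < ord (n + 1) - ord n}.ncard) ≤
        ({n : ℕ | 1 ≤ n ∧ n ≤ N ∧ P n}.ncard) := by
    apply Set.ncard_le_ncard
    · rintro n ⟨a1, a2, a3, a4⟩
      have a5 := (SG.ord_le_iff a1 (2 * T)).mp a3
      exact ⟨a1, a5.trans h2', hT2 T hTT2 n a1 a2 a3 a4⟩
    · refine (Set.finite_Iic N).subset ?_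
      intro n hn
      exact hn.2.1
  exact_mod_cast h5

/-- From the local statement (the conclusion of `LOCAL`) to a positive proportion of all gaps. -/
theorem POS_of_local (κ : ℝ) (hκ : 0 < κ) (c : ℝ) (hc : 0 < c)
    (h : ∃ η ε K T0 : ℝ, 0 < η ∧ 0 < ε ∧ 1 ≤ K ∧ 10 ≤ T0 ∧ ∀ T : ℝ, T0 ≤ T →
      ∀ t0 : ℝ, 11 / 10 * T ≤ t0 → t0 ≤ 19 / 10 * T →
      ε * dd κ T * Real.log T ≤ ({n : ℕ | 1 ≤ n ∧ |ord n - t0| ≤ K * dd κ T ∧
        2 * Real.pi * (c + η) / Real.log T < ord (n + 1) - ord n}.ncard : ℝ)) :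
    ∃ ε : ℝ, 0 < ε ∧ ∀ᶠ N : ℕ in atTop, ε * N ≤
      (({n : ℕ | 1 ≤ n ∧ n ≤ N ∧
        c < (ord (n + 1) - ord n) / (2 * Real.pi) * Real.log (ord n / (2 * Real.pi))}.ncard : ℕ) : ℝ) := by
  obtain ⟨η, ε, K, T0, hη, hε, hK, hT0, hloc⟩ := h
  apply pos_large_aux (c + η) _ (pos_large κ hκ (c + η) hε hK hT0 hloc)
  -- `η log T ≥ (c + η) log (2π)`
  obtain ⟨T2, hT2⟩ := (tendsto_atTop.mp Real.tendsto_log_atTop
    ((c + η) * Real.log (2 * Real.pi) / η)).exists_forall_of_atTop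
  refine ⟨max T2 10, fun T hT n hn1 h3 h4 h6 => ?_⟩
  have hT10 : 10 ≤ T := (le_max_right _ _).trans hT
  have hTT2 := hT2 T ((le_max_left _ _).trans hT)
  rw [div_le_iff₀ hη] at hTT2
  have hpi := Real.pi_gt_three
  have hpi4 := Real.pi_lt_four
  have hlogT : 0 < Real.log T := Real.log_pos (by linarith)
  have h8 : Real.log T - Real.log (2 * Real.pi) ≤ Real.log (ord n / (2 * Real.pi)) := by
    rw [← Real.log_div (by linarith) (by positivity)]
    apply Real.log_le_log (by positivity)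
    exact div_le_div_of_nonneg_right h3 (by positivity)
  have h9 : 0 < Real.log T - Real.log (2 * Real.pi) := by
    have : Real.log (2 * Real.pi) < Real.log T := Real.log_lt_log (by positivity) (by linarith)
    linarith
  have h10 : (c + η) / Real.log T < (ord (n + 1) - ord n) / (2 * Real.pi) := by
    rw [lt_div_iff₀ (by positivity)]
    calc (c + η) / Real.log T * (2 * Real.pi) = 2 * Real.pi * (c + η) / Real.log T := by ring
      _ < _ := h6
  have h11 : c ≤ (c + η) / Real.log T * (Real.log T - Real.log (2 * Real.pi)) := by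
    rw [div_mul_eq_mul_div, le_div_iff₀ hlogT]
    nlinarith
  have h12 : 0 < (c + η) / Real.log T := by positivity
  calc c ≤ (c + η) / Real.log T * (Real.log T - Real.log (2 * Real.pi)) := h11
    _ < (ord (n + 1) - ord n) / (2 * Real.pi) * (Real.log T - Real.log (2 * Real.pi)) :=
        mul_lt_mul_of_pos_right h10 h9
    _ ≤ (ord (n + 1) - ord n) / (2 * Real.pi) * Real.log (ord n / (2 * Real.pi)) :=
        mul_le_mul_of_nonneg_left h8 (h12.trans h10).le

end LG
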